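import Mathlib
import Pool.Agent.X303.HC.Loc4

/-!
# Codimension two: commuting automorphisms of nonsingular subvarieties

Let `X ⊂ ℙ^N`, `N ≥ 3`, be a nonsingular irreducible closed subvariety of codimension two which is
the zero scheme of a section of a rank two bundle `E` (for `N ≥ 6` every nonsingular `X` of
codimension two is of this form, by the theorems of Barth-Larsen and Serre), and let `c` be the first
Chern class of `E`; so `ω_X = O_X(c - N - 1)`.  Suppose that `X` is not a complete intersection.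

Let `P` be a point outside `X`, and `S` a set of commuting matrices which preserve `X`, such that `P`
lies in an eigenspace of dimension at least three of each of them.  Let `g` be in the group
generated by `S`, `g P = m P`, and let `l` be an eigenvalue of `g` whose eigenspace has dimension at
least three and is not contained in the cone over `X`.  Then `(m / l) ^ c = 1`, and
`(m / l) ^ p = (m / l) ^ q = 1` for the splitting types `(p, q)` of all the lines joining `P` to this
eigenspace.

So if `(m / l) ^ c ≠ 1` for some such `P`, `S`, `g`, then `X` is a complete intersection; the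
eigenspace of `m` may be the line spanned by `P`.

The automorphisms of `X` lift to `E` with the section as an eigenvector (a consequence of Serre's
correspondence, proved in the helper files), and the lifts compose up to constants, so that the
starting result `MP_745d3a_ag.AbelianSymmetry` gives `(m / l) ^ (p - q) = 1`.  The eigenvalue of the
section occurs on the fibres of `E` at the fixed points outside `X`, which gives
`(m / l) ^ p = 1` or `(m / l) ^ q = 1`.
-/

set_option autoImplicit false

namespace Pool.Agent.Results.MP_9a3fdb_ag.CommutingAutomorphisms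

open MvPolynomial H960VB Pool.Agent.X303.HC Pool.Agent.X303.HC.Var

/-- the eigenspace of `g` with eigenvalue `l` -/
def eigen {n : ℕ} (g : Matrix (Fin (n + 1)) (Fin (n + 1)) ℂ) (l : ℂ) :
    Submodule ℂ (Fin (n + 1) → ℂ) :=
  LinearMap.ker (g.mulVecLin - l • LinearMap.id)

/-- **Commuting automorphisms of a subvariety of codimension two.** -/
theorem result {N : ℕ} (hN : 3 ≤ N) (I : Ideal (MvPolynomial (Fin (N + 1)) ℂ))
    (hI : IsSmoothVariety N 2 I) (hX : ¬ IsCompleteIntersection N 2 I)
    -- `X` is the zero scheme of a section of a rank two bundle, of first Chern class `c`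
    (E : Bundle2 N) (s : Fin E.a → MvPolynomial (Fin (N + 1)) ℂ) (hs : IsZeroScheme E s I)
    (c : ℤ) (hc : IsChern E c)
    -- commuting automorphisms, and a point `P` outside `X` in a large eigenspace of each of them
    (S : Set (Matrix (Fin (N + 1)) (Fin (N + 1)) ℂ)ˣ)
    (hS : ∀ a ∈ S, Preserves (a : Matrix (Fin (N + 1)) (Fin (N + 1)) ℂ) I)
    (hcomm : ∀ a ∈ S, ∀ b ∈ S, a * b = b * a)
    (P : Fin (N + 1) → ℂ) (hPX : P ∉ cone I)
    (hP : ∀ a ∈ S, ∃ r : ℂ, P ∈ eigen (a : Matrix (Fin (N + 1)) (Fin (N + 1)) ℂ) r ∧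
      3 ≤ Module.finrank ℂ (eigen (a : Matrix (Fin (N + 1)) (Fin (N + 1)) ℂ) r))
    -- an element of the group generated by them, with a large eigenspace which is not in `X`
    (g : (Matrix (Fin (N + 1)) (Fin (N + 1)) ℂ)ˣ) (hg : g ∈ Subgroup.closure S) (m l : ℂ)
    (hm : P ∈ eigen (g : Matrix (Fin (N + 1)) (Fin (N + 1)) ℂ) m)
    (hl : 3 ≤ Module.finrank ℂ (eigen (g : Matrix (Fin (N + 1)) (Fin (N + 1)) ℂ) l))
    (hlX : ∃ x ∈ eigen (g : Matrix (Fin (N + 1)) (Fin (N + 1)) ℂ) l, x ∉ cone I) :
    (m / l) ^ c = 1 ∧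
    ∀ Q ∈ eigen (g : Matrix (Fin (N + 1)) (Fin (N + 1)) ℂ) l, Q ≠ 0 → ∀ p q : ℤ,
      E.SplitsOn P Q p q → (m / l) ^ p = 1 ∧ (m / l) ^ q = 1 := by
  classical
  have hs0 : IsZeroSchemeOf E 0 s I := hs
  have Z := zs hI (zeroScheme_twist hs0)
  have hE : ¬ E.Splits := fun h => hX (ci_of_splits (by omega) hI hs h)
  have key : ∀ Q ∈ eigen (g : Matrix (Fin (N + 1)) (Fin (N + 1)) ℂ) l, Q ≠ 0 → ∀ p q : ℤ,
      E.SplitsOn P Q p q → (m / l) ^ p = 1 ∧ (m / l) ^ q = 1 := by
    intro Q hQ hQ0 p q hpq
    have h := comm_group hN Z hI.homogeneous hE S hS hcomm hPX hP hg hm hl hlX hQ0 hQ hpq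
    rwa [add_zero, add_zero] at h
  refine ⟨?_, key⟩
  obtain ⟨x, hx, hxX⟩ := hlX
  have hx0 : x ≠ 0 := by
    rintro rfl
    exact hxX Z.zero_mem
  have hP0 : P ≠ 0 := by
    rintro rfl
    exact hPX Z.zero_mem
  have he : ∀ {k : ℂ} {R : Fin (N + 1) → ℂ},
      R ∈ eigen (g : Matrix (Fin (N + 1)) (Fin (N + 1)) ℂ) k ↔
        (g : Matrix (Fin (N + 1)) (Fin (N + 1)) ℂ).mulVec R = k • R := by
    intro k R
    unfold eigen
    rw [LinearMap.mem_ker, LinearMap.sub_apply, LinearMap.smul_apply, LinearMap.id_apply,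
      sub_eq_zero, Matrix.mulVecLin_apply]
  have hinj := Matrix.mulVec_injective_iff_isUnit.2 g.isUnit
  have hm0 : m ≠ 0 := by
    rintro rfl
    have h1 := he.1 hm
    rw [zero_smul] at h1
    exact hP0 (hinj (h1.trans (Matrix.mulVec_zero _).symm))
  by_cases hml : m = l
  · rw [hml, div_self (hml ▸ hm0), one_zpow]
  have hli : LinearIndependent ℂ ![P, x] := by
    rw [LinearIndependent.pair_iff]
    intro a b hab
    have h1 := congrArg (g : Matrix (Fin (N + 1)) (Fin (N + 1)) ℂ).mulVec hab
    rw [Matrix.mulVec_add, Matrix.mulVec_smul, Matrix.mulVec_smul, he.1 hm, he.1 hx,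
      Matrix.mulVec_zero] at h1
    have h2 : (a * (m - l)) • P = 0 := by
      have h3 : (a * (m - l)) • P = (a • m • P + b • l • x) - l • (a • P + b • x) := by
        module
      rw [h3, h1, hab, smul_zero, sub_zero]
    have ha : a = 0 := by
      rcases smul_eq_zero.1 h2 with h4 | h4
      · exact (mul_eq_zero.1 h4).resolve_right (sub_ne_zero.2 hml)
      · exact absurd h4 hP0
    rw [ha, zero_smul, zero_add] at hab
    exact ⟨ha, (smul_eq_zero.1 hab).resolve_right hx0⟩
  obtain ⟨⟨p, q, hpq⟩, h2⟩ := hc P x hli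
  have hl0 : l ≠ 0 := by
    rintro rfl
    have h1 := he.1 hx
    rw [zero_smul] at h1
    exact hx0 (hinj (h1.trans (Matrix.mulVec_zero _).symm))
  obtain ⟨e1, e2⟩ := key x hx hx0 p q hpq
  rw [← h2 p q hpq, zpow_add₀ (div_ne_zero hm0 hl0), e1, e2, mul_one]

end Pool.Agent.Results.MP_9a3fdb_ag.CommutingAutomorphisms
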