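import Mathlib
import Pool.Agent.X269.CT.Jac

/-!
# Smooth subvarieties stable under groups generated by reflections

Let `W` be a finite group of linear transformations of `ℂ^(n + 1)` generated by (complex)
reflections, with basic invariants `f_0, …, f_n` of degrees `d_0, …, d_n`. Let `X ⊂ ℙⁿ` be a
nonsingular irreducible closed subvariety of codimension `r`, `2 ≤ r ≤ n - 4`, stable under `W`,
on which `f_0, …, f_{r - 3}` vanish (an empty condition in codimension two); if `r > 2` suppose
that `X` is not contained in the zero set of the Jacobian determinant of the basic invariants (the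
union of the reflecting hyperplanes, by Steinberg). Let `z` be a common zero of all the basic
invariants except `f_t`, with `t ≥ r - 2` and `f_t(z) ≠ 0`. If `X` is cut out at the point `z` by
forms of degree less than `2 d_t`, then `X` is a transversal intersection of `r` hypersurfaces.

For the group `G(m, 1, a)` acting on the first `a` coordinates one can take `d_t = m a` and
`z = (1, ζ, …, ζ^(a - 1), 0, …, 0)` with a primitive `m a`-th root of unity `ζ`; for `a = 1` this is
the group generated by a homology of order `m` with centre `z`.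
-/

set_option autoImplicit false

namespace Pool.Agent.Results.MP_9a3fdb_ag.ReflectionStable

open MvPolynomial

/-- the affine cone over the projective zero set `X` of the ideal `I` -/
def cone {n : ℕ} (I : Ideal (MvPolynomial (Fin (n + 1)) ℂ)) : Set (Fin (n + 1) → ℂ) :=
  {x | ∀ F ∈ I, eval x F = 0}

/-- the gradient at the point `x` -/
noncomputable def grad {n : ℕ} (F : MvPolynomial (Fin (n + 1)) ℂ) (x : Fin (n + 1) → ℂ) :
    Fin (n + 1) → ℂ := fun i => eval x (pderiv i F)

/-- the conormal space at the point `x` of the cone -/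
noncomputable def conormal {n : ℕ} (I : Ideal (MvPolynomial (Fin (n + 1)) ℂ))
    (x : Fin (n + 1) → ℂ) : Submodule ℂ (Fin (n + 1) → ℂ) :=
  Submodule.span ℂ {v | ∃ F ∈ I, v = grad F x}

/-- `I` is the homogeneous ideal of a nonsingular irreducible closed subvariety `X` of
codimension `r` of the complex projective space `ℙⁿ`: it is a homogeneous prime ideal, `X` is not
empty, and at every point of `X` the gradients of the elements of `I` span a space of dimension
`r` (Jacobian criterion). -/
structure IsSmoothVariety (n r : ℕ) (I : Ideal (MvPolynomial (Fin (n + 1)) ℂ)) : Prop where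
  prime : I.IsPrime
  homogeneous : ∀ F ∈ I, ∀ d, homogeneousComponent d F ∈ I
  nonempty : ∃ x ∈ cone I, x ≠ 0
  smooth : ∀ x ∈ cone I, x ≠ 0 → Module.finrank ℂ (conormal I x) = r

/-- `X` is a transversal intersection of `r` hypersurfaces: there are forms `F_1, …, F_r` with
`X = V(F_1, …, F_r)`, with linearly independent differentials at every point of `X`, and
generating the homogeneous ideal `I` of `X`. -/
def IsTransversalIntersection (n r : ℕ) (I : Ideal (MvPolynomial (Fin (n + 1)) ℂ)) : Prop :=
  ∃ F : Fin r → MvPolynomial (Fin (n + 1)) ℂ, (∀ i, ∃ d, (F i).IsHomogeneous d) ∧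
    (∀ x, x ∈ cone I ↔ ∀ i, eval x (F i) = 0) ∧
    (∀ x ∈ cone I, x ≠ 0 → LinearIndependent ℂ (fun i => grad (F i) x)) ∧
    I = Ideal.span (Set.range F)

/-- `X` is cut out scheme-theoretically at the point `z` by forms of degree less than `e`: if `z`
is not a point of `X`, then one of the elements of `I` of degree less than `e` does not vanish at
`z`; if `z` is a point of `X`, then the gradients at `z` of the elements of `I` of degree less than
`e` span the conormal space of `X`. -/
def IsCutOutAt {n : ℕ} (e : ℕ) (z : Fin (n + 1) → ℂ)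
    (I : Ideal (MvPolynomial (Fin (n + 1)) ℂ)) : Prop :=
  (z ∉ cone I → ∃ F ∈ I, F.totalDegree < e ∧ eval z F ≠ 0) ∧
  (z ∈ cone I → conormal I z ≤ Submodule.span ℂ {ξ | ∃ F ∈ I, F.totalDegree < e ∧ ξ = grad F z})

/-- the polynomial `F(g x)` -/
noncomputable def comp {n : ℕ} (g : Matrix (Fin (n + 1)) (Fin (n + 1)) ℂ)
    (F : MvPolynomial (Fin (n + 1)) ℂ) : MvPolynomial (Fin (n + 1)) ℂ :=
  aeval (fun i => ∑ j, C (g i j) * X j : Fin (n + 1) → MvPolynomial (Fin (n + 1)) ℂ) F

/-- `W` is a finite group generated by (complex) reflections, that is, by elements of the form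
`x ↦ x + α(x) v` with a linear form `α` and a vector `v`. -/
structure IsReflectionGroup {n : ℕ} (W : Subgroup (Matrix.GeneralLinearGroup (Fin (n + 1)) ℂ)) :
    Prop where
  finite : Finite W
  generated : W = Subgroup.closure {g | g ∈ W ∧ ∃ v α : Fin (n + 1) → ℂ,
    (g : Matrix (Fin (n + 1)) (Fin (n + 1)) ℂ) = 1 + Matrix.vecMulVec v α}

/-- `f_0, …, f_n` are basic invariants of `W`, of degrees `d_0, …, d_n`: they are homogeneous of
these positive degrees, invariant, and every invariant polynomial is a polynomial in them. -/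
structure IsBasic {n : ℕ} (W : Subgroup (Matrix.GeneralLinearGroup (Fin (n + 1)) ℂ))
    (f : Fin (n + 1) → MvPolynomial (Fin (n + 1)) ℂ) (d : Fin (n + 1) → ℕ) : Prop where
  pos : ∀ i, 0 < d i
  homogeneous : ∀ i, (f i).IsHomogeneous (d i)
  invariant : ∀ g ∈ W, ∀ i, comp (g : Matrix (Fin (n + 1)) (Fin (n + 1)) ℂ) (f i) = f i
  generate : ∀ F, (∀ g ∈ W, comp (g : Matrix (Fin (n + 1)) (Fin (n + 1)) ℂ) F = F) →
    F ∈ Algebra.adjoin ℂ (Set.range f)

/-- the Jacobian determinant -/
noncomputable def jacobian {n : ℕ} (f : Fin (n + 1) → MvPolynomial (Fin (n + 1)) ℂ) :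
    MvPolynomial (Fin (n + 1)) ℂ :=
  Matrix.det (Matrix.of fun i j => pderiv j (f i))

theorem result {n r : ℕ} (hr : 2 ≤ r) (hn : r + 4 ≤ n)
    (I : Ideal (MvPolynomial (Fin (n + 1)) ℂ)) (hI : IsSmoothVariety n r I)
    -- `X` is stable under the reflection group `W`
    (W : Subgroup (Matrix.GeneralLinearGroup (Fin (n + 1)) ℂ)) (hW : IsReflectionGroup W)
    (hst : ∀ g ∈ W, ∀ x ∈ cone I,
      (g : Matrix (Fin (n + 1)) (Fin (n + 1)) ℂ).mulVec x ∈ cone I)
    -- basic invariants
    (f : Fin (n + 1) → MvPolynomial (Fin (n + 1)) ℂ) (d : Fin (n + 1) → ℕ) (hf : IsBasic W f d)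
    -- if `r > 2`, then `X` is not contained in the union of the reflecting hyperplanes
    (hJ : r = 2 ∨ jacobian f ∉ I)
    -- the first `r - 2` basic invariants vanish on `X`
    (hfI : ∀ i, i.1 + 2 < r → f i ∈ I)
    -- all the basic invariants but `f_t` vanish at `z`
    (t : Fin (n + 1)) (ht : r ≤ t.1 + 2)
    (z : Fin (n + 1) → ℂ) (hz : ∀ i, i ≠ t → eval z (f i) = 0) (hzt : eval z (f t) ≠ 0)
    (hcut : IsCutOutAt (2 * d t) z I) :
    IsTransversalIntersection n r I := by
  classical
  have := hW.finite
  have hc : Fintype.card {i : Fin (n + 1) // i.1 + 2 < r} + 2 = r := by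
    have e : {i : Fin (n + 1) // i.1 + 2 < r} ≃ Fin (r - 2) :=
      { toFun := fun i => ⟨i.1.1, by have := i.2; omega⟩
        invFun := fun i => ⟨⟨i.1, by have := i.2; omega⟩, by
          have := i.2
          show i.1 + 2 < r
          omega⟩
        left_inv := fun i => rfl
        right_inv := fun i => rfl }
    rw [Fintype.card_congr e, Fintype.card_fin]
    omega
  exact Pool.Agent.X269.CT.main_refl' (r := r) (by rw [Fintype.card_fin]; omega) I hI.prime
    hI.homogeneous hI.nonempty hI.smooth W hW.generated hst f d hf.pos hf.homogeneous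
    hf.invariant hf.generate hJ (fun i => i.1 + 2 < r) hc hfI t (by omega) z hz hzt hcut.1
    hcut.2

end Pool.Agent.Results.MP_9a3fdb_ag.ReflectionStable
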